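import Pool.Agent.Lib.MP_0b0414_ag.Main

set_option autoImplicit false

/-!
# The maximal number of common zeros, with an explicit value, attained by a linear system

Let `q = |F|`, `1 ≤ d < q`, `m ≥ 1`, `1 ≤ r ≤ (m + d).choose d`. Let `n` be the integer such that exactly `r` integers
`x` with `n ≤ x < q ^ m` have base-`q` digit sum at most `d`, the digit sum of `n` being at most `d`. Then the
maximal number of `F`-rational points of a system of `r` independent forms of degree `d` in `m + 1`
variables is `n + (1 + q + ⋯ + q ^ (log_q n - 1))`, and it is attained by a system all of whose rational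
points lie on linear components.
-/

open MvPolynomial

namespace Pool.Agent.Results.MP_0b0414_ag.LinearMaximum

theorem result (F : Type) [Field F] [Fintype F] (m d r : ℕ) (hm : 1 ≤ m) (hd1 : 1 ≤ d)
    (hd : d < Fintype.card F) (hr1 : 1 ≤ r) (hr : r ≤ (m + d).choose d) :
    ∃ n : ℕ, n < Fintype.card F ^ m ∧ (Nat.digits (Fintype.card F) n).sum ≤ d ∧
      ((Finset.range (Fintype.card F ^ m)).filter
        (fun x => n ≤ x ∧ (Nat.digits (Fintype.card F) x).sum ≤ d)).card = r ∧
      (∀ G : Fin r → MvPolynomial (Fin (m + 1)) F, (∀ i, (G i).IsHomogeneous d) →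
        LinearIndependent F G →
        {x : Projectivization F (Fin (m + 1) → F) | ∀ i, MvPolynomial.eval x.rep (G i) = 0}.ncard
          ≤ n + ∑ j ∈ Finset.range (Nat.log (Fintype.card F) n), Fintype.card F ^ j) ∧
      ∃ f : Fin r → MvPolynomial (Fin (m + 1)) F, (∀ i, (f i).IsHomogeneous d) ∧
        LinearIndependent F f ∧
        {x : Projectivization F (Fin (m + 1) → F) | ∀ i, MvPolynomial.eval x.rep (f i) = 0}.ncard
          = n + ∑ j ∈ Finset.range (Nat.log (Fintype.card F) n), Fintype.card F ^ j ∧
        ∀ x : Projectivization F (Fin (m + 1) → F), (∀ i, MvPolynomial.eval x.rep (f i) = 0) →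
          ∃ P ∈ (Ideal.span (Set.range (fun i =>
              MvPolynomial.map (algebraMap F (AlgebraicClosure F)) (f i)))).minimalPrimes,
            (∃ S : Set (MvPolynomial (Fin (m + 1)) (AlgebraicClosure F)),
              (∀ l ∈ S, l.IsHomogeneous 1) ∧ P = Ideal.span S) ∧
            ∀ g ∈ P, MvPolynomial.eval (fun j => algebraMap F (AlgebraicClosure F) (x.rep j)) g = 0 := by
  classical
  have hq : 1 < Fintype.card F := Fintype.one_lt_card
  have hcp := B04.cost_pow (Fintype.card F) d m hd
  obtain ⟨n, hn1, hn2, hn3, hn4⟩ :=
    B04.exists_n (Fintype.card F) d m ((m + d).choose d - r) (by omega)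
  obtain ⟨f, hf1, hf2, hf3, hf4⟩ := B04.example_forms F m d n hd1 hd hn1 hn3
  have hcard := B04.card_index (Fintype.card F) d m n hn1
  rw [hcp, hn2] at hcard
  have hcard' : ((Finset.range (Fintype.card F ^ m)).filter
      (fun x => n ≤ x ∧ B04.ds (Fintype.card F) x ≤ d)).card = r := by omega
  have hup : ∀ G : Fin r → MvPolynomial (Fin (m + 1)) F, (∀ i, (G i).IsHomogeneous d) →
        LinearIndependent F G →
        {x : Projectivization F (Fin (m + 1) → F) | ∀ i, MvPolynomial.eval x.rep (G i) = 0}.ncard
          ≤ B04.Emax (Fintype.card F) n := fun G hG hli =>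
    B04.zeros_le hq hm d hd1 hd r G hG hli n (by omega)
  let e := (Finset.equivFinOfCardEq hcard').symm
  refine ⟨n, hn1, hn3, hcard', hup, fun i => f (e i), fun i => hf1 _, hf2.comp _ e.injective, ?_, ?_⟩
  · apply le_antisymm
    · exact hup _ (fun i => hf1 _) (hf2.comp _ e.injective)
    · refine hf4.trans ?_
      apply le_of_eq
      congr 1
      ext x
      simp only [Set.mem_ofPred_eq]
      constructor
      · intro h i; exact h _
      · intro h i
        have := h (e.symm i)
        rwa [Equiv.apply_symm_apply] at this
  · intro x hx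
    apply B04.exists_linear_minimalPrime
    · intro i
      obtain ⟨s, hs1, hs2⟩ := hf3 (e i)
      refine ⟨s.map (MvPolynomial.map (algebraMap F (AlgebraicClosure F))), ?_, ?_⟩
      · intro l hl
        rw [Multiset.mem_map] at hl
        obtain ⟨l', hl', rfl⟩ := hl
        exact (hs1 l' hl').map _
      · beta_reduce
        rw [← hs2, map_multiset_prod]
    · intro i
      have h1 := hx i
      have h2 : MvPolynomial.eval (fun j => algebraMap F (AlgebraicClosure F) (x.rep j))
          (MvPolynomial.map (algebraMap F (AlgebraicClosure F)) (f (e i)))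
          = algebraMap F (AlgebraicClosure F) (MvPolynomial.eval x.rep (f (e i))) := by
        rw [MvPolynomial.eval_map]
        exact (MvPolynomial.eval₂_comp (algebraMap F (AlgebraicClosure F)) x.rep (f (e i))).symm
      exact h2.trans (by rw [h1, map_zero])

end Pool.Agent.Results.MP_0b0414_ag.LinearMaximum
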